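import Mathlib

set_option autoImplicit false

namespace Pool.Agent.MP305c6f

/-- The state reached from `q` by reading the word `w`, i.e. the extended transition
function `δ(q, w)` of a deterministic automaton with transition function `δ`. -/
def run {Q A : Type} (δ : Q → A → Q) (q : Q) (w : List A) : Q := w.foldl δ q

/-- `w` is a reset word: the image `δ(Q, w)` of the whole state set is a singleton. -/
def IsReset {Q A : Type} (δ : Q → A → Q) (w : List A) : Prop :=
  (Set.range (fun q => run δ q w)).ncard = 1

/-- The transition monoid: all maps `q ↦ δ(q, w)`, `w` a word, under composition. -/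
def transitionMonoid {Q A : Type} (δ : Q → A → Q) : Submonoid (Function.End Q) where
  carrier := {f | ∃ w : List A, ∀ q, f q = run δ q w}
  one_mem' := ⟨[], fun _ => rfl⟩
  mul_mem' := by
    rintro f g ⟨u, hu⟩ ⟨v, hv⟩
    refine ⟨v ++ u, fun q => ?_⟩
    change f (g q) = _
    rw [hu, hv]
    simp [run, List.foldl_append]

/-- The two-sided principal ideal `M x M` of a monoid. -/
def ideal {M : Type} [Monoid M] (x : M) : Set M := {m | ∃ p q : M, m = p * x * q}

/-- The class **DS**: `MxM = MyM = MzM = MtM = MxyM` implies `MxyM = MztM`. -/
def InDS (M : Type) [Monoid M] : Prop :=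
  ∀ x y z t : M, ideal x = ideal y → ideal y = ideal z → ideal z = ideal t →
    ideal t = ideal (x * y) → ideal (x * y) = ideal (z * t)

/-- The set of all reset thresholds (lengths of shortest reset words) of synchronizing automata
with `n` states, over an arbitrary finite nonempty alphabet, whose transition monoid is in
**DS**.  (`IsLeast` forces the automaton to have a reset word, i.e. to be synchronizing.) -/
def resetThresholdsDS (n : ℕ) : Set ℕ :=
  {ℓ | ∃ (Q A : Type) (_ : Fintype Q) (_ : Nonempty Q) (_ : Finite A) (_ : Nonempty A)
    (δ : Q → A → Q), Fintype.card Q = n ∧ InDS (transitionMonoid δ) ∧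
      IsLeast {k | ∃ w : List A, w.length = k ∧ IsReset δ w} ℓ}

end Pool.Agent.MP305c6f
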