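import Pool.Agent.MP305c6f.Defs

set_option autoImplicit false
set_option linter.unusedSectionVars false

namespace Pool.Agent.MP305c6f

open Submodule

section ideals
variable {M : Type} [Monoid M]

lemma mem_ideal_self (x : M) : x ∈ ideal x := ⟨1, 1, by simp⟩

lemma ideal_mono {x y : M} (h : x ∈ ideal y) : ideal x ⊆ ideal y := by
  obtain ⟨p, q, rfl⟩ := h
  rintro _ ⟨a, b, rfl⟩
  exact ⟨a * p, q * b, by simp only [mul_assoc]⟩

end ideals

section main
variable {Q A : Type} [Fintype Q] (δ : Q → A → Q)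

/-- letter as an element of the transition monoid -/
def letter (a : A) : transitionMonoid δ := ⟨fun q => δ q a, ⟨[a], fun _ => rfl⟩⟩

def word (w : List A) : transitionMonoid δ := ⟨fun q => run δ q w, ⟨w, fun _ => rfl⟩⟩

/-- the action of the monoid on functions -/
def act (m : transitionMonoid δ) (f : Q → ℚ) : Q → ℚ := fun q => f (m.1 q)

lemma act_mul (m m' : transitionMonoid δ) (f : Q → ℚ) :
    act δ (m * m') f = act δ m' (act δ m f) := rfl

lemma act_add (m : transitionMonoid δ) (f g : Q → ℚ) : act δ m (f + g) = act δ m f + act δ m g := rfl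
lemma act_smul (m : transitionMonoid δ) (c : ℚ) (f : Q → ℚ) : act δ m (c • f) = c • act δ m f := rfl
lemma act_zero (m : transitionMonoid δ) : act δ m (0 : Q → ℚ) = 0 := rfl

def Inv (U : Submodule ℚ (Q → ℚ)) : Prop := ∀ m : transitionMonoid δ, ∀ f ∈ U, act δ m f ∈ U

def bad (U U' : Submodule ℚ (Q → ℚ)) (m : transitionMonoid δ) : Prop := ∃ f ∈ U, act δ m f ∉ U'

variable {δ}

structure MaxPair (U U' : Submodule ℚ (Q → ℚ)) : Prop where
  inv : Inv δ U
  inv' : Inv δ U'
  lt : U' < U
  max : ∀ N : Submodule ℚ (Q → ℚ), Inv δ N → U' ≤ N → N ≤ U → N = U' ∨ N = U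

lemma key_L {U U' : Submodule ℚ (Q → ℚ)} (h : MaxPair (δ := δ) U U') {w : Q → ℚ} (hw : w ∈ U)
    (hw' : w ∉ U') {m' : transitionMonoid δ} (hm : bad δ U U' m') :
    ∃ x : transitionMonoid δ, act δ m' (act δ x w) ∉ U' := by
  by_contra hcon
  push Not at hcon
  set N : Submodule ℚ (Q → ℚ) := U' ⊔ span ℚ (Set.range (fun x : transitionMonoid δ => act δ x w)) with hN
  have hgen : ∀ x : transitionMonoid δ, act δ x w ∈ N := fun x =>
    (le_sup_right : _ ≤ N) (subset_span ⟨x, rfl⟩)
  have hinvN : Inv δ N := by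
    intro m f hf
    rw [hN, Submodule.mem_sup] at hf
    obtain ⟨y, hy, z, hz, rfl⟩ := hf
    rw [act_add]
    refine N.add_mem ((le_sup_left : U' ≤ N) (h.inv' m y hy)) ?_
    refine span_induction (p := fun z _ => act δ m z ∈ N) ?_ ?_ ?_ ?_ hz
    · rintro _ ⟨x, rfl⟩
      change act δ m (act δ x w) ∈ N
      rw [← act_mul]
      exact hgen _
    · rw [act_zero]; exact N.zero_mem
    · intro a b _ _ ha hb
      rw [act_add]; exact N.add_mem ha hb
    · intro c a _ ha
      rw [act_smul]; exact N.smul_mem c ha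
  have hNU : N ≤ U := by
    refine sup_le h.lt.le (span_le.2 ?_)
    rintro _ ⟨x, rfl⟩
    exact h.inv x w hw
  have hNU' : N ≠ U' := by
    intro he
    apply hw'
    rw [← he]
    exact hgen 1
  have hNeq : N = U := (h.max N hinvN le_sup_left hNU).resolve_left hNU'
  obtain ⟨f, hf, hf'⟩ := hm
  apply hf'
  rw [← hNeq, hN, Submodule.mem_sup] at hf
  obtain ⟨y, hy, z, hz, rfl⟩ := hf
  rw [act_add]
  refine U'.add_mem (h.inv' m' y hy) ?_
  refine span_induction (p := fun z _ => act δ m' z ∈ U') ?_ ?_ ?_ ?_ hz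
  · rintro _ ⟨x, rfl⟩
    exact hcon x
  · rw [act_zero]; exact U'.zero_mem
  · intro a b _ _ ha hb
    rw [act_add]; exact U'.add_mem ha hb
  · intro c a _ ha
    rw [act_smul]; exact U'.smul_mem c ha

lemma bad_one {U U' : Submodule ℚ (Q → ℚ)} (h : MaxPair (δ := δ) U U') : bad δ U U' 1 := by
  obtain ⟨f, hf, hf'⟩ := SetLike.exists_of_lt h.lt
  exact ⟨f, hf, hf'⟩

lemma bad_mul (hDS : InDS (transitionMonoid δ)) {U U' : Submodule ℚ (Q → ℚ)}
    (h : MaxPair (δ := δ) U U') {m1 m2 : transitionMonoid δ} (h1 : bad δ U U' m1)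
    (h2 : bad δ U U' m2) : bad δ U U' (m1 * m2) := by
  classical
  have hfinE : Finite (Function.End Q) := inferInstanceAs (Finite (Q → Q))
  have hfin : Finite (transitionMonoid δ) := inferInstance
  -- choose a bad element with an ideal of minimal size
  obtain ⟨m, hm, hmin⟩ : ∃ m, bad δ U U' m ∧ ∀ x, bad δ U U' x → (ideal m).ncard ≤ (ideal x).ncard := by
    obtain ⟨m, hm, hmin⟩ := Set.exists_min_image {m : transitionMonoid δ | bad δ U U' m}
      (fun m => (ideal m).ncard) (Set.toFinite _) ⟨1, bad_one h⟩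
    exact ⟨m, hm, fun x hx => hmin x hx⟩
  have hJ : ∀ x, bad δ U U' x → x ∈ ideal m → ideal x = ideal m := by
    intro x hx hxm
    exact Set.eq_of_subset_of_ncard_le (ideal_mono hxm) (hmin x hx) (Set.toFinite _)
  obtain ⟨f, hfU, hf⟩ := hm
  have hm : bad δ U U' m := ⟨f, hfU, hf⟩
  obtain ⟨u, hu⟩ := key_L h (h.inv m f hfU) hf hm
  have hmum : bad δ U U' (m * u * m) := ⟨f, hfU, hu⟩
  have hmu : bad δ U U' (m * u) := ⟨f, hfU, fun hc => hu (h.inv' m _ hc)⟩
  have e1 : ideal (m * u) = ideal m := hJ _ hmu ⟨1, u, by simp⟩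
  have e2 : ideal (m * u * m) = ideal m := hJ _ hmum ⟨1, u * m, by simp [mul_assoc]⟩
  have hclosed : ∀ z t : transitionMonoid δ, ideal z = ideal m → ideal t = ideal m →
      ideal (z * t) = ideal m := by
    intro z t hz ht
    have := hDS (m * u) m z t e1 hz.symm (hz.trans ht.symm) (ht.trans e2.symm)
    rw [← this]
    exact e2
  have hge : ∀ m', bad δ U U' m' → m ∈ ideal m' := by
    intro m' hm'
    obtain ⟨x, hx⟩ := key_L h (h.inv m f hfU) hf hm'
    have hxU : act δ m' (act δ x (act δ m f)) ∈ U :=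
      h.inv m' _ (h.inv x _ (h.inv m f hfU))
    obtain ⟨y, hy⟩ := key_L h hxU hx hm
    have hb : bad δ U U' (m * x * m' * y * m) := ⟨f, hfU, hy⟩
    have he := hJ _ hb ⟨1, x * m' * y * m, by simp [mul_assoc]⟩
    have hmm : m ∈ ideal (m * x * m' * y * m) := by rw [he]; exact mem_ideal_self m
    obtain ⟨p, q, hpq⟩ := hmm
    exact ⟨p * (m * x), y * m * q, by simpa only [mul_assoc] using hpq⟩
  obtain ⟨p1, q1, hp1⟩ := hge m1 h1
  obtain ⟨p2, q2, hp2⟩ := hge m2 h2
  have emm : ideal (m * m) = ideal m := hclosed m m rfl rfl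
  have hmm : m ∈ ideal (m * m) := by rw [emm]; exact mem_ideal_self m
  have ez : ideal (m * p1 * m1) = ideal m := by
    apply Set.Subset.antisymm (ideal_mono ⟨1, p1 * m1, by simp [mul_assoc]⟩)
    refine (ideal_mono hmm).trans (ideal_mono ⟨1, q1, ?_⟩)
    have : m * m = m * (p1 * m1 * q1) := by rw [← hp1]
    rw [this]; simp [mul_assoc]
  have et : ideal (m2 * q2 * m) = ideal m := by
    apply Set.Subset.antisymm (ideal_mono ⟨m2 * q2, 1, by simp [mul_assoc]⟩)
    refine (ideal_mono hmm).trans (ideal_mono ⟨p2, 1, ?_⟩)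
    have : m * m = (p2 * m2 * q2) * m := by rw [← hp2]
    rw [this]; simp [mul_assoc]
  have ezt := hclosed _ _ ez et
  have hmzt : m ∈ ideal (m * p1 * m1 * (m2 * q2 * m)) := by rw [ezt]; exact mem_ideal_self m
  obtain ⟨a, b, hab⟩ := hmzt
  by_contra hcon
  unfold bad at hcon
  push Not at hcon
  apply hf
  have : m = (a * m * p1) * (m1 * m2) * (q2 * m * b) := by
    simpa only [mul_assoc] using hab
  rw [this]
  change act δ (q2 * m * b) (act δ (m1 * m2) (act δ (a * m * p1) f)) ∈ U'
  exact h.inv' _ _ (hcon _ (h.inv _ f hfU))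

lemma word_cons (a : A) (w : List A) : word δ (a :: w) = word δ w * letter δ a := rfl

lemma word_append (w : List A) (a : A) : word δ (w ++ [a]) = letter δ a * word δ w := by
  apply Subtype.ext
  funext q
  change run δ q (w ++ [a]) = δ (run δ q w) a
  simp [run, List.foldl_append]

lemma bad_word (hDS : InDS (transitionMonoid δ)) {U U' : Submodule ℚ (Q → ℚ)}
    (h : MaxPair (δ := δ) U U') (hl : ∀ a, bad δ U U' (letter δ a)) (w : List A) :
    bad δ U U' (word δ w) := by
  induction w with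
  | nil => exact bad_one h
  | cons a w ih =>
    rw [word_cons]
    exact bad_mul hDS h ih (hl a)

/-- the constant functions -/
def consts (Q : Type) : Submodule ℚ (Q → ℚ) := span ℚ {fun _ => 1}

lemma inv_consts : Inv δ (consts Q) := by
  intro m f hf
  rw [consts, mem_span_singleton] at hf ⊢
  obtain ⟨c, rfl⟩ := hf
  exact ⟨c, rfl⟩

lemma main_ind (hDS : InDS (transitionMonoid δ)) (hQ : Nonempty Q) (r : List A)
    (hr : ∀ f : Q → ℚ, act δ (word δ r) f ∈ consts Q) :
    ∀ d : ℕ, ∀ U : Submodule ℚ (Q → ℚ), Inv δ U → consts Q ≤ U → Module.finrank ℚ U = d →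
      ∃ w : List A, w.length + 1 ≤ d ∧ ∀ f ∈ U, act δ (word δ w) f ∈ consts Q := by
  intro d
  induction d using Nat.strong_induction_on with
  | _ d ih =>
    intro U hinv hle hd
    have hc1 : Module.finrank ℚ (consts Q) = 1 := by
      rw [consts]
      apply finrank_span_singleton
      intro h0
      obtain ⟨q⟩ := hQ
      have := congrFun h0 q
      simp at this
    by_cases hU : U = consts Q
    · refine ⟨[], ?_, ?_⟩
      · rw [← hd, hU, hc1]; simp
      · intro f hf
        rw [← hU]; exact hf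
    · have hlt : consts Q < U := lt_of_le_of_ne hle (Ne.symm hU)
      obtain ⟨U', ⟨hU'inv, hU'c, hU'lt⟩, hU'max⟩ := WellFounded.has_min
        (wellFounded_gt : WellFounded (α := Submodule ℚ (Q → ℚ)) (· > ·))
        {N | Inv δ N ∧ consts Q ≤ N ∧ N < U} ⟨consts Q, inv_consts, le_rfl, hlt⟩
      have hMP : MaxPair (δ := δ) U U' := by
        refine ⟨hinv, hU'inv, hU'lt, ?_⟩
        intro N hN h1 h2
        by_contra hcon
        push Not at hcon
        exact hU'max N ⟨hN, hU'c.trans h1, lt_of_le_of_ne h2 hcon.2⟩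
          (lt_of_le_of_ne h1 (Ne.symm hcon.1))
      have hex : ∃ a, ¬ bad δ U U' (letter δ a) := by
        by_contra hcon
        push Not at hcon
        obtain ⟨f, _, hf⟩ := bad_word hDS hMP hcon r
        exact hf (hU'c (hr f))
      obtain ⟨a, ha⟩ := hex
      unfold bad at ha
      push Not at ha
      have hrank : Module.finrank ℚ U' < Module.finrank ℚ U := finrank_lt_finrank_of_lt hU'lt
      obtain ⟨w, hw1, hw2⟩ := ih _ (by omega) U' hU'inv hU'c rfl
      refine ⟨w ++ [a], ?_, ?_⟩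
      · simp only [List.length_append, List.length_cons, List.length_nil]
        omega
      · intro f hf
        rw [word_append, act_mul]
        exact hw2 _ (ha f hf)

lemma isReset_iff (hQ : Nonempty Q) (w : List A) :
    IsReset δ w ↔ ∃ q₀, ∀ q, run δ q w = q₀ := by
  unfold IsReset
  rw [Set.ncard_eq_one]
  constructor
  · rintro ⟨a, ha⟩
    refine ⟨a, fun q => ?_⟩
    have : run δ q w ∈ Set.range (fun q => run δ q w) := ⟨q, rfl⟩
    rw [ha] at this
    exact this
  · rintro ⟨a, ha⟩
    refine ⟨a, ?_⟩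
    obtain ⟨q⟩ := hQ
    ext x
    constructor
    · rintro ⟨q, rfl⟩; exact ha q
    · intro hx
      rw [Set.mem_singleton_iff] at hx
      exact ⟨q, by rw [hx]; exact ha q⟩

lemma upper (hDS : InDS (transitionMonoid δ)) (hQ : Nonempty Q) (r : List A)
    (hr : IsReset δ r) : ∃ w : List A, w.length + 1 ≤ Fintype.card Q ∧ IsReset δ w := by
  classical
  rw [isReset_iff hQ] at hr
  obtain ⟨q₀, hq₀⟩ := hr
  have hr' : ∀ f : Q → ℚ, act δ (word δ r) f ∈ consts Q := by
    intro f
    rw [consts, mem_span_singleton]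
    refine ⟨f q₀, ?_⟩
    funext q
    change f q₀ * 1 = f (run δ q r)
    rw [hq₀ q, mul_one]
  obtain ⟨w, hw1, hw2⟩ := main_ind hDS hQ r hr' (Module.finrank ℚ (⊤ : Submodule ℚ (Q → ℚ)))
    ⊤ (fun _ _ _ => trivial) le_top rfl
  rw [finrank_top, Module.finrank_fintype_fun_eq_card] at hw1
  refine ⟨w, hw1, ?_⟩
  rw [isReset_iff hQ]
  obtain ⟨q₁⟩ := hQ
  refine ⟨run δ q₁ w, fun q => ?_⟩
  have h := hw2 (fun x => if x = run δ q₁ w then 1 else 0) trivial
  rw [consts, mem_span_singleton] at h
  obtain ⟨c, hc⟩ := h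
  have h1 := congrFun hc q₁
  have h2 := congrFun hc q
  change c * 1 = (if run δ q₁ w = run δ q₁ w then 1 else 0) at h1
  change c * 1 = (if run δ q w = run δ q₁ w then 1 else 0) at h2
  rw [if_pos rfl] at h1
  rw [h1] at h2
  by_contra hne
  rw [if_neg hne] at h2
  norm_num at h2

end main

section lower

lemma comm_inDS {M : Type} [Monoid M] (hc : ∀ a b : M, a * b = b * a) : InDS M := by
  intro x y z t h1 h2 h3 h4
  have key : ∀ a b c d : M, a ∈ ideal c → b ∈ ideal d → a * b ∈ ideal (c * d) := by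
    rintro _ _ c d ⟨p, q, rfl⟩ ⟨p', q', rfl⟩
    refine ⟨p * p', q' * q, ?_⟩
    calc p * c * q * (p' * d * q') = p * c * (q * (p' * (d * q'))) := by simp only [mul_assoc]
      _ = p * c * ((p' * (d * q')) * q) := by rw [hc q]
      _ = p * (c * p') * (d * q' * q) := by simp only [mul_assoc]
      _ = p * (p' * c) * (d * q' * q) := by rw [hc c p']
      _ = _ := by simp only [mul_assoc]
  have hxz : ideal x = ideal z := h1.trans h2
  have hyt : ideal y = ideal t := h2.trans h3
  apply Set.Subset.antisymm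
  · apply ideal_mono
    apply key
    · rw [← hxz]; exact mem_ideal_self x
    · rw [← hyt]; exact mem_ideal_self y
  · apply ideal_mono
    apply key
    · rw [hxz]; exact mem_ideal_self z
    · rw [hyt]; exact mem_ideal_self t

/-- the one-letter automaton `i ↦ min (i+1) (n-1)` -/
def chain (n : ℕ) : Fin (n + 1) → Unit → Fin (n + 1) := fun i _ =>
  ⟨min (i.1 + 1) n, by omega⟩

lemma chain_run (n : ℕ) (w : List Unit) (i : Fin (n + 1)) :
    (run (chain n) i w).1 = min (i.1 + w.length) n := by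
  induction w generalizing i with
  | nil => simp [run]; omega
  | cons a w ih =>
    have := ih (chain n i a)
    simp only [run, List.foldl_cons] at this ⊢
    rw [this]
    simp only [chain, List.length_cons]
    omega

lemma chain_reset (n : ℕ) (w : List Unit) : IsReset (chain n) w ↔ n ≤ w.length := by
  rw [isReset_iff ⟨0⟩]
  constructor
  · rintro ⟨q, hq⟩
    have h1 := congrArg Fin.val (hq 0)
    have h2 := congrArg Fin.val (hq (Fin.last n))
    rw [chain_run] at h1 h2
    simp only [Fin.val_zero, Fin.val_last] at h1 h2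
    omega
  · intro h
    refine ⟨Fin.last n, fun q => ?_⟩
    apply Fin.ext
    rw [chain_run, Fin.val_last]
    omega

lemma chain_comm (n : ℕ) (a b : transitionMonoid (chain n)) : a * b = b * a := by
  obtain ⟨f, u, hu⟩ := a
  obtain ⟨g, v, hv⟩ := b
  apply Subtype.ext
  funext q
  change f (g q) = g (f q)
  rw [hu, hv, hv, hu]
  apply Fin.ext
  rw [chain_run, chain_run, chain_run, chain_run]
  omega

end lower

theorem main (n : ℕ) (hn : 1 ≤ n) : IsGreatest (resetThresholdsDS n) (n - 1) := by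
  constructor
  · obtain ⟨k, rfl⟩ : ∃ k, n = k + 1 := ⟨n - 1, by omega⟩
    refine ⟨Fin (k + 1), Unit, inferInstance, inferInstance, inferInstance, inferInstance,
      chain k, by simp, comm_inDS (chain_comm k), ?_, ?_⟩
    · refine ⟨List.replicate k (), by simp, ?_⟩
      rw [chain_reset]; simp
    · rintro _ ⟨w, rfl, hw⟩
      rw [chain_reset] at hw
      simpa using hw
  · rintro ℓ ⟨Q, A, _, hQ, _, _, δ, hcard, hDS, ⟨r, _, hr⟩, hleast⟩
    obtain ⟨w, hw1, hw2⟩ := upper hDS hQ r hr
    have := hleast ⟨w, rfl, hw2⟩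
    omega

end Pool.Agent.MP305c6f
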